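import Pool.Agent.X281.SE.Norm

/-!
# The section conjecture for plane curves given by norm forms, 100% of the members of a family

Let `K` be a number field, `c ∈ K[t]`, `f ∈ K[t][x]` of degree `d` in `x`.  For `t ∈ O_K` let
`E_t = K(η)` with a root `η` of `f(t, x)`, and consider ALL plane curves of degree `d` of the form

  `X : N_{E_t/K}(A₀ x₀ + A₁ x₁ + A₂ x₂) = c(t)^m Q(x₀, x₁, x₂)ⁿ`,   `A₀, A₁, A₂ ∈ E_t`,

where `n | d` and `Q` is a form of degree `d/n` over `K` that does not vanish at the points of
intersection of the `d` conjugate lines (this is part of the smoothness of `X`).  These lines meet `X`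
with multiplicities divisible by `n`; for `d = 4` and `n = 2` the curve is a plane quartic with four
conjugate bitangents, and over an algebraically closed field every smooth plane quartic is of this
form.

Let `D ≥ 2` and let `θ ∈ K̄` be a simple zero of `c` such that `f(θ, x)` is separable of degree `d` and
some `σ ∈ Gal(K̄/K(θ))` permutes its roots in cycles of lengths divisible by `gcd(2, D) D`.  We prove
that for all `t ∈ O_K` outside a set of density zero the following holds if `f(t, x)` is irreducible:
for all integers `m`, all finite extensions `L` of `K` such that `D` does not divide `m [L : K]`, all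
`n | d` divisible by `D`, all `A₀, A₁, A₂ ∈ E_t` and all `Q` the curve `X` has no point over `L`, and the
fundamental groups of its open subcurves over `L`, and of all smooth curves (or varieties) over `L` that
dominate it, have no sections over `G_L`.

So for almost all `t` the section conjecture is true for all these curves over `L` at once, without
points and sections.  For `c = t` and `f ∈ K[x]` the field `E = E_t` is fixed, and the theorem says that
for 100% of the numbers `a ∈ O_K` all curves `N_{E/K}(A₀ x₀ + A₁ x₁ + A₂ x₂) = a Qⁿ` have no sections;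
for instance `E/K` may be any Galois extension whose Galois group has an element of an order divisible
by `gcd(2, D) D`.  The set of the exceptional `t` has density zero in a strong sense: for every `ε > 0`
there is an ideal `I ≠ 0` such that the exceptional `t` lie in at most `ε #(O_K/I)` residue classes
modulo `I`.

The fundamental group is described through valuations.  Let `U` be a smooth geometrically connected
curve over `k` with function field `F`, let `Ω` be an algebraic closure of `F`, and let `F_U` be the
maximal extension of `F` inside `Ω` which is unramified over the closed points of `U`, that is, over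
their local rings, which are valuation rings of `F`.  Then `π₁(U) = Gal(F_U/F)`, and the map
`π₁(U) → G_k` is the restriction of automorphisms to the algebraic closure of `k` in `Ω`.

Proof.  By Chebotarev almost all `t` have a prime `v` of degree one with `v(c(t)) = 1` such that
`f(t, x)` is separable of degree `d` modulo `v` and the Frobenius element permutes its roots in cycles of
lengths divisible by `gcd(2, D) D`.  At such a prime the local theorem `Pool.Agent.TH377.NC.gen_both`
applies: for two conjugate linear forms the function `λ_i/λ_j` on `X` has an `n`-th root in `F_U`; by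
Kummer theory a section attaches to it a constant whose valuations modulo `n` at the places above `v`
are additive and invariant under the decomposition group; their sum is zero, but by the equation of the
curve it is the valuation of `c(t)^m`.
-/

open Polynomial NumberField

namespace Pool.Agent.Results.MP_c1dca2_ag.NormCurves

universe u v w x y

section definitions

variable (k : Type u) (F : Type v) (Ω : Type w) [Field k] [Field F] [Field Ω] [Algebra k F]
  [Algebra F Ω] [Algebra k Ω]

/-- The inertia group of the valuation ring `W` of `Ω`, as a subgroup of `Gal(Ω/F)`: the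
automorphisms of `Ω` over `F` that map `W` onto itself and act as the identity on its residue
field. -/
noncomputable def inertia (W : ValuationSubring Ω) : Subgroup (Ω ≃ₐ[F] Ω) :=
  (W.inertiaSubgroup F).map (W.decompositionSubgroup F).subtype

/-- `F_U`, for a set `U` of valuation rings of `F`: the elements of `Ω` fixed by the inertia groups
of all valuation rings `W` of `Ω` with `W ∩ F ∈ U`.  If `Ω` is an algebraic closure of a field `F`
of characteristic zero, this is the maximal extension of `F` in `Ω` unramified over `U`. -/
noncomputable def unramified (U : Set (ValuationSubring F)) : IntermediateField F Ω :=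
  ⨅ W : {W : ValuationSubring Ω // W.comap (algebraMap F Ω) ∈ U},
    IntermediateField.fixedField (inertia F Ω W.1)

/-- The map `τ : M → M` acts as `σ : K → K` on the elements that the fields `K` and `M` have in
common when they are regarded as subfields of `Ω` through `i` and `j`. -/
def ActsAs {K M Ω : Type*} [Field K] [Field M] [Field Ω] (i : K →+* Ω) (j : M →+* Ω) (σ : K → K)
    (τ : M → M) : Prop :=
  ∀ c z, j z = i c → j (τ z) = i (σ c)

/-- Let `k ⊆ K ⊆ Ω` and `F ⊆ M ⊆ Ω` be fields.  A splitting of `Gal(M/F) → Gal(K/k)`: a continuous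
homomorphism `s` from `Gal(K/k)` to `Gal(M/F)` such that `s(σ)` acts as `σ` on the elements of
`K ∩ M`. -/
structure Splitting (K M : Type*) [Field K] [Field M] [Algebra k K] [Algebra F M] [Algebra K Ω]
    [Algebra M Ω] where
  /-- the homomorphism `Gal(K/k) → Gal(M/F)` -/
  toHom : (K ≃ₐ[k] K) →* (M ≃ₐ[F] M)
  cont : Continuous toHom
  compat : ∀ σ : K ≃ₐ[k] K, ActsAs (algebraMap K Ω) (algebraMap M Ω) σ (toHom σ)

/-- The sections of `π₁(U) = Gal(F_U/F) → G_k`: the continuous homomorphisms `s` from
`G_k = Gal(k̄/k)` to `Gal(F_U/F)`, where `k̄` is the algebraic closure of `k` in `Ω`, such that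
`s(σ)` acts as `σ` on the elements of `k̄`. -/
def GaloisSection (U : Set (ValuationSubring F)) : Type w :=
  Splitting k F Ω (algebraicClosure k Ω) (unramified F Ω U)

end definitions

section curve

variable {K : Type u} {E : Type x} [Field K] [Field E] [Algebra K E] [FiniteDimensional K E]

/-- The equation `N_{E/K}(A₀ x₀ + A₁ x₁ + A₂ x₂) = a Q(x₀, x₁, x₂)ⁿ` at a vector with entries in an
algebraically closed field `Ω` over `K`: the norm is the product over the embeddings `σ` of `E` into
`Ω` of the `σ(A₀) x₀ + σ(A₁) x₁ + σ(A₂) x₂`. -/
def OnCurve {Ω : Type*} [Field Ω] [Algebra K Ω] (A : Fin 3 → E) (a : K)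
    (Q : MvPolynomial (Fin 3) K) (n : ℕ) (x : Fin 3 → Ω) : Prop :=
  ∏ σ : E →ₐ[K] Ω, ∑ j, σ (A j) * x j = algebraMap K Ω a * MvPolynomial.aeval x Q ^ n

/-- The form `Q` does not vanish at the points of intersection of two conjugate lines
`σ(A₀) x₀ + σ(A₁) x₁ + σ(A₂) x₂ = 0`.  (In particular these lines are different.) -/
def Transversal (A : Fin 3 → E) (Q : MvPolynomial (Fin 3) K) : Prop :=
  ∀ σ τ : E →ₐ[K] AlgebraicClosure K, σ ≠ τ →
    MvPolynomial.aeval (crossProduct (fun j => σ (A j)) (fun j => τ (A j))) Q ≠ 0

/-- The curve has no point over `L`. -/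
def NoPoint (L : Type y) [Field L] [Algebra K L] (A : Fin 3 → E) (a : K)
    (Q : MvPolynomial (Fin 3) K) (n : ℕ) : Prop :=
  ∀ x : Fin 3 → L, x ≠ 0 → ¬ OnCurve A a Q n fun j => algebraMap L (AlgebraicClosure L) (x j)

/-- Let `F` be any field over `L` that contains a point of the curve, for instance the function field
of the curve over `L`, and let `Ω` be an algebraic closure of `F`.  Then for every set `U` of
valuation rings of `F` over `L` there is no section of `π₁(U) → G_L`.  If `F` is the function field of
the curve, such `U` are given by its normalisation and by all its open subcurves. -/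
def NoSection (L : Type y) [Field L] [Algebra K L] (A : Fin 3 → E) (a : K)
    (Q : MvPolynomial (Fin 3) K) (n : ℕ) : Prop :=
  ∀ (F : Type v) (Ω : Type w) [Field F] [Field Ω] [Algebra L F] [Algebra F Ω] [Algebra L Ω]
    [Algebra K Ω] [IsScalarTower L F Ω] [IsScalarTower K L Ω] [IsAlgClosure F Ω] (x : Fin 3 → F)
    (U : Set (ValuationSubring F)), x ≠ 0 → OnCurve A a Q n (fun j => algebraMap F Ω (x j)) →
      (∀ O ∈ U, ∀ c : L, algebraMap L F c ∈ O) → IsEmpty (GaloisSection L F Ω U)

end curve

/-- The polynomial `f(t, x)` in `x`, for `f ∈ K[t][x]` and an element `t` of a field `B` over `K`. -/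
noncomputable def member {K : Type u} [Field K] (f : K[X][X]) {B : Type*} [Field B] [Algebra K B]
    (t : B) : B[X] :=
  f.map (eval₂RingHom (algebraMap K B) t)

/-- Some element `σ` of the Galois group of `K` fixes `θ` and permutes the roots of `f(θ, x)` in cycles
of lengths divisible by `N`. -/
def HasElement {K : Type u} [Field K] (N : ℕ) (f : K[X][X]) (θ : AlgebraicClosure K) : Prop :=
  ∃ σ : AlgebraicClosure K ≃ₐ[K] AlgebraicClosure K, σ θ = θ ∧
    ∀ n : ℕ, ¬ N ∣ n → ∀ ρ, (member f θ).eval ρ = 0 → (σ ^ n) ρ ≠ ρ

/-- `η` generates `E` over `K` and is a root of the irreducible polynomial `p`. -/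
def GeneratedByRoot {K : Type u} {E : Type x} [Field K] [Field E] [Algebra K E]
    (p : K[X]) (η : E) : Prop :=
  Irreducible p ∧ Algebra.adjoin K {η} = ⊤ ∧ aeval η p = 0

/-- All the assertions for the polynomial `p` and the number `a`: for all extensions `E` of `K` generated
by a root of the irreducible polynomial `p`, all finite extensions `L` of `K` and integers `m` such
that `D` does not divide `m [L : K]`, all `n | deg p` divisible by `D`, all `A₀, A₁, A₂ ∈ E` and all
forms `Q` of degree `(deg p)/n` over `K` that do not vanish at the points of intersection of the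
conjugate lines, the curve `N_{E/K}(A₀ x₀ + A₁ x₁ + A₂ x₂) = a^m Qⁿ` has no point and no section over
`L`. -/
def Nothing {K : Type u} [Field K] (D : ℕ) (a : K) (p : K[X]) : Prop :=
  ∀ (E : Type x) [Field E] [Algebra K E] [FiniteDimensional K E] (η : E), GeneratedByRoot p η →
    ∀ (L : Type y) [Field L] [Algebra K L] [FiniteDimensional K L] (m : ℤ),
    ¬ (D : ℤ) ∣ m * (Module.finrank K L : ℤ) → ∀ n q : ℕ, D ∣ n → n * q = p.natDegree →
      ∀ (A : Fin 3 → E) (Q : MvPolynomial (Fin 3) K), Q.IsHomogeneous q → Transversal A Q →
        NoPoint L A (a ^ m) Q n ∧ NoSection.{u, v, w} L A (a ^ m) Q n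

/-- The integers `t` of `K` for which the assertions are not all true for `f(t, x)` and `c(t)`, or the
degree of `f(t, x)` is smaller than the one of `f`. -/
def Exceptional {K : Type u} [Field K] (D : ℕ) (c : K[X]) (f : K[X][X]) : Set (𝓞 K) :=
  {t | ¬ ((member f (algebraMap (𝓞 K) K t)).natDegree = f.natDegree ∧
    Nothing.{u, v, w, x, y} D (c.eval (algebraMap (𝓞 K) K t)) (member f (algebraMap (𝓞 K) K t)))}

/-- Density zero: for every `ε > 0` there is an ideal `I ≠ 0` such that `E` lies in at most
`ε #(O_K/I)` residue classes modulo `I`. -/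
def DensityZero {K : Type u} [Field K] (E : Set (𝓞 K)) : Prop :=
  ∀ ε : ℝ, 0 < ε → ∃ I : Ideal (𝓞 K), I ≠ ⊥ ∧
    (Set.ncard ((Ideal.Quotient.mk I) '' E) : ℝ) ≤ ε * Nat.card (𝓞 K ⧸ I)

/-- Let `K` be a number field, `c ∈ K[t]`, `f ∈ K[t][x]`, `D ≥ 2`, and let `θ ∈ K̄` be a simple zero of `c`
such that `f(θ, x)` is separable of the same degree `d` as `f` and some element of `Gal(K̄/K(θ))`
permutes its roots in cycles of lengths divisible by `gcd(2, D) D`.  Then for all `t ∈ O_K` outside a
set of density zero, the polynomial `f(t, x)` has degree `d`, and if it is irreducible and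
`E = K(η)` with a root `η`, then for all integers `m` and all finite extensions `L` of `K` such that
`D` does not divide `m [L : K]`, all `n | d` divisible by `D`, all `A₀, A₁, A₂ ∈ E` and all forms `Q` of
degree `d/n` over `K` that do not vanish at the points of intersection of the conjugate lines, the
plane curve `N_{E/K}(A₀ x₀ + A₁ x₁ + A₂ x₂) = c(t)^m Qⁿ` has no point over `L`, and the fundamental
groups of its open subcurves over `L` and of all smooth curves over `L` that dominate it have no
sections over `G_L`. -/
theorem result (K : Type u) [Field K] [NumberField K] (D : ℕ) (hD : 2 ≤ D) (c : K[X])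
    (f : K[X][X]) (θ : AlgebraicClosure K) (hc : aeval θ c = 0)
    (hc' : aeval θ (derivative c) ≠ 0) (hdeg : (member f θ).natDegree = f.natDegree)
    (hsep : (member f θ).Separable) (h : HasElement (Nat.gcd 2 D * D) f θ) :
    DensityZero (Exceptional.{u, v, w, x, y} D c f) := by
  have hadm : Pool.Agent.X281.SE.Adm (Nat.gcd 2 D * D) f θ := by
    obtain ⟨σ, h1, h2⟩ := h
    refine ⟨σ, h1, fun ρ hρ h3 => ?_, fun _ => h2⟩
    refine h2 1 ?_ ρ hρ (by rw [pow_one]; exact h3)
    intro h4
    have h5 : D ∣ 1 := (Dvd.intro_left _ rfl).trans h4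
    have := Nat.le_of_dvd one_pos h5
    omega
  intro ε hε
  obtain ⟨I, hI, hIE⟩ := Pool.Agent.X281.SE.norm_density.{u, v, w, x, y} D hD c f θ hc hc' hdeg
    hsep hadm ε hε
  refine ⟨I, hI, le_trans ?_ hIE⟩
  have hfin : Finite (𝓞 K ⧸ I) := Ideal.finiteQuotientOfFreeOfNeBot _ hI
  have hsub : (Exceptional.{u, v, w, x, y} D c f : Set (𝓞 K)) ⊆
      {t : 𝓞 K | ¬ ((Pool.Agent.X281.SE.fibre f (algebraMap (𝓞 K) K t)).natDegree = f.natDegree ∧
        Pool.Agent.X281.SE.NormFine.{u, v, w, x, y} D (c.eval (algebraMap (𝓞 K) K t))
          (Pool.Agent.X281.SE.fibre f (algebraMap (𝓞 K) K t)))} := by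
    intro t ht hfine
    apply ht
    refine ⟨hfine.1, ?_⟩
    intro E _ _ _ η hη L _ _ _ m hm n q hDn hnq A Q hQ htr
    obtain ⟨key1, key2⟩ := hfine.2 E η hη.1 hη.2.1 hη.2.2 L m hm n q hDn hnq A Q hQ htr
    refine ⟨fun x hx hon => key1 x hx hon, ?_⟩
    intro F Ω _ _ _ _ _ _ _ _ _ x U hx hon hU
    have h4 := key2 F Ω x U hx hon hU
    exact ⟨fun s => h4.false ⟨s.toHom, s.cont, s.compat⟩⟩
  exact_mod_cast Set.ncard_le_ncard (Set.image_mono hsub) (Set.toFinite _)

end Pool.Agent.Results.MP_c1dca2_ag.NormCurves
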