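import Pool.Agent.Results.MP_c1dca2_ag.FamiliesOverExtensions
import Pool.Agent.X134.Win.Level
import Pool.Agent.X134.Win.Idx

/-!
# Sections of fundamental groups for the members in windows of heights of all families in powers of elliptic curves

Let `v ≥ 1` be a sequence of exponent of convergence at most `τ` (`0` for `v_k = b ^ k`) and `θ < 1`. There is one
set `A` of real numbers of Hausdorff dimension at most `τ / (1 - θ)` such that for each `α > 0` outside `A` the
following holds for ALL number fields `K`, ALL elliptic curves `E : y² = x³ + a x + b` over `K` whose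
Tate-Shafarevich group over `K` is killed by some integer (any rank; nothing is assumed over larger fields) and ALL
closed subsets `X` of `E ^ r × ℙ ^ n` over `K` (families of subvarieties `X_y ⊆ E ^ r` with parameter `y`) such
that every complex point of `E ^ r` is for at most `D` of the `y` a sum of `m` points of `X_y`, `1 ≤ m ≤ M`. For all
but finitely many `k`, ALL points `y` in `ℙ ^ n (K)` with `|H(y) - α v_k| ≤ v_k ^ θ` and ALL extensions `F` of `K` of
degree at most `M`, no smooth curve `C` over `F` with a map to `X_y` has a section of the map from `π₁(C)` to the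
absolute Galois group of `F` which is given over `F_w` by a point (or a cusp) of `C` for all finite places `w` of `F`.

Proof. The starting result `FamiliesOverExtensions` gives `O(B ^ ε)` exceptions up to height `B`; covering argument
`Pool.Agent.Y854.GM`; the situations are countable in number.
-/

set_option autoImplicit false

namespace Pool.Agent.Results.MP_c1dca2_ag.SectionsInWindows

open MvPolynomial NumberField IsDedekindDomain MeasureTheory
open Pool.Agent.TH954 Pool.Agent.W620.SC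

open scoped LinearAlgebra.Projectivization

/-- the exponent of convergence of the sequence `v` is at most `τ` -/
def ExpLe (v : ℕ → ℝ) (τ : ℝ) : Prop := ∀ t : ℝ, τ < t → Summable (fun n : ℕ => (v n) ^ (-t))

/-- the number fields inside a fixed algebraic closure of the rationals -/
abbrev NF : Type := Pool.Agent.X134.Win.NF

/-- for `1 ≤ m ≤ M` each complex point of `E ^ r` is for at most `D` of the complex points `y` a sum of `m` points
of `X_y` -/
def SumsLE {K : Type} [Field K] (σ : K →+* ℂ) (a b : 𝓞 K) {r n q : ℕ}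
    (G : Fin q → MvPolynomial ((Fin r × Fin 3) ⊕ Fin (n + 1)) (𝓞 K)) (M D : ℕ) : Prop :=
  ∀ m, 1 ≤ m → m ≤ M → ∀ S : Fin r → (FamiliesOverExtensions.curve (σ a) (σ b)).toAffine.Point,
    {y : ℙ ℂ (Fin (n + 1) → ℂ) | FamiliesOverExtensions.IsSum σ a b G m S y.rep}.encard ≤ D

/-- no curve over an extension `F` of `K` of degree at most `M` which maps to `X_y` has a section which is given by
points at all finite places: `L` is the function field of the curve, `U` the set of the valuation rings of its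
points, `N` an extension of `L` which contains the maximal extension unramified over `U`, `P` the image of the
generic point in `E ^ r` -/
def NoSection {K : Type} [Field K] [NumberField K] (a b : 𝓞 K) {r n q : ℕ}
    (G : Fin q → MvPolynomial ((Fin r × Fin 3) ⊕ Fin (n + 1)) (𝓞 K)) (M : ℕ)
    (y : ℙ K (Fin (n + 1) → K)) : Prop :=
  ∀ (F : Type) [Field F] [NumberField F] [Algebra K F] (_ : Module.finrank K F ≤ M)
    (L Ω N A : Type) [Field L] [Field Ω] [Field N] [Field A] [Algebra F L] [Algebra L Ω]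
    [Algebra F Ω] [Algebra L N] [Algebra F N] [Algebra F A] [IsScalarTower F L Ω]
    [IsScalarTower F L N] [IsAlgClosure L Ω] [IsAlgClosure F A]
    (U : Set (ValuationSubring L)) (_ : ∀ O ∈ U, ∀ c : F, algebraMap F L c ∈ O)
    (e : N →ₐ[L] Ω) (_ : unramified L Ω U ≤ e.fieldRange)
    (P : Fin r → ((FamiliesOverExtensions.curve (algebraMap K F a)
      (algebraMap K F b)).baseChange L).toAffine.Point)
    (_ : OnX (FamiliesOverExtensions.MemberOver G F y) (fun i => crd (P i))) (s : GalSection F L N A),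
    ¬ ∀ w : HeightOneSpectrum (𝓞 F),
      ∃ p : Plc F N (AlgebraicClosure (w.adicCompletion F)), s.GivenBy (w.adicCompletion F) p

/-- the assertion for all elliptic curves over `K` and all families -/
def Explained (K : Type) [Field K] [NumberField K] (v : ℕ → ℝ) (α θ : ℝ) : Prop :=
  ∀ a b : 𝓞 K, 4 * a ^ 3 + 27 * b ^ 2 ≠ 0 → ∀ M₀ : ℕ, 1 ≤ M₀ →
    ShaKilledBy (FamiliesOverExtensions.curve (a : K) (b : K)) M₀ → ∀ (r n q : ℕ)
    (G : Fin q → MvPolynomial ((Fin r × Fin 3) ⊕ Fin (n + 1)) (𝓞 K))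
    (d : Fin q → Fin r → ℕ) (deg : Fin q → ℕ),
    (∀ e, FamiliesOverExtensions.MultiHomog (G e) (d e) (deg e)) →
    ∀ (σ : K →+* ℂ) (M D : ℕ), SumsLE σ a b G M D →
    ∃ k₀ : ℕ, ∀ k : ℕ, k₀ ≤ k →
      ∀ y : ℙ K (Fin (n + 1) → K), |y.mulHeight - α * v k| ≤ (v k) ^ θ → NoSection a b G M y

section Proof

/-- the hypotheses -/
def Hyp (K : Type) [Field K] [NumberField K] {r n q : ℕ} (a b : 𝓞 K)
    (G : Fin q → MvPolynomial ((Fin r × Fin 3) ⊕ Fin (n + 1)) (𝓞 K)) (M : ℕ) : Prop :=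
  4 * a ^ 3 + 27 * b ^ 2 ≠ 0 ∧
    (∃ M₀ : ℕ, 1 ≤ M₀ ∧ ShaKilledBy (FamiliesOverExtensions.curve (a : K) (b : K)) M₀) ∧
    (∃ (d : Fin q → Fin r → ℕ) (m : Fin q → ℕ),
      ∀ e, FamiliesOverExtensions.MultiHomog (G e) (d e) (m e)) ∧
    ∃ (σ : K →+* ℂ) (D : ℕ), SumsLE σ a b G M D

theorem few (K : Type) [Field K] [NumberField K] {r n q : ℕ} (a b : 𝓞 K)
    (G : Fin q → MvPolynomial ((Fin r × Fin 3) ⊕ Fin (n + 1)) (𝓞 K)) (M : ℕ) :
    Pool.Agent.X134.Win.FewBad (fun y : ℙ K (Fin (n + 1) → K) => y.mulHeight)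
      (fun _ y => Hyp K a b G M → NoSection a b G M y) := by
  classical
  by_cases h : Hyp K a b G M
  · obtain ⟨h1, ⟨M₀, hM1, hM⟩, ⟨d, m, h2⟩, σ, D, h3⟩ := id h
    have h4 := Pool.Agent.X134.Win.fewBad_of (fun y : ℙ K (Fin (n + 1) → K) => y.mulHeight)
      (fun y => NoSection a b G M y) (fun ε hε => by
        obtain ⟨C, hC⟩ := FamiliesOverExtensions.result K a b h1 M₀ hM1 hM r n q G d m h2 σ M D h3 ε hε
        refine ⟨C, fun B hB => ?_⟩
        obtain ⟨Z, hZ, hg⟩ := hC B hB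
        exact ⟨Z, hZ, fun y hy hyZ => hg y hy hyZ⟩)
    intro ε hε
    obtain ⟨C, hC⟩ := h4 ε hε
    refine ⟨C, fun B hB => ?_⟩
    obtain ⟨N, hN1, hN2, Z, hZ, hg⟩ := hC B hB
    exact ⟨N, hN1, hN2, Z, hZ, fun y hy hyZ _ => hg y hy hyZ⟩
  · exact Pool.Agent.X134.Win.fewBad_trivial _ _ fun N y h' => absurd h' h

/-- the index set -/
abbrev I : Type := Pool.Agent.X134.Win.Idx fun _ => ℕ

/-- the property -/
def P : ∀ i : I, ℕ → ℙ i.1.1 (Fin (i.2.2.1 + 1) → i.1.1) → Prop
  | ⟨K, _, _, _, (a, b), G, M⟩ => fun _ y => Hyp K.1 a b G M → NoSection a b G M y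

end Proof

/-- **Theorem.** See the header. -/
theorem result :
    (∀ (v : ℕ → ℝ) (τ θ : ℝ), (∀ k, 1 ≤ v k) → 0 ≤ τ → ExpLe v τ → θ < 1 →
      ∃ A : Set ℝ, dimH A ≤ ENNReal.ofReal (τ / (1 - θ)) ∧ ∀ α : ℝ, 0 < α → α ∉ A →
        ∀ K : NF, Explained K.1 v α θ) ∧
    (∀ b : ℝ, 0 < b → ExpLe (fun n : ℕ => ((n : ℝ) + 1) ^ b) (1 / b)) ∧
    (∀ b : ℝ, 1 < b → ExpLe (fun n : ℕ => b ^ n) 0) := by
  refine ⟨fun v τ θ hv hτ hE hθ => ?_, fun b hb => Pool.Agent.Y854.GM.expLe_pow b hb,
    fun b hb => Pool.Agent.Y854.GM.expLe_geom b hb⟩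
  obtain ⟨A, hA, H⟩ := Pool.Agent.X134.Win.levels (ι := I)
    (T := fun i => ℙ i.1.1 (Fin (i.2.2.1 + 1) → i.1.1)) (fun i y => y.mulHeight) P
    (by rintro ⟨K, r, n, q, ⟨a, b⟩, G, M⟩; exact few K.1 a b G M) hv hτ hE hθ
  refine ⟨A, hA, fun α hα hαA K a b hab M₀ hM1 hM r n q G d deg hG σ M D hX => ?_⟩
  obtain ⟨k₀, hk₀⟩ := H α hα hαA ⟨K, r, n, q, (a, b), G, M⟩ 1 one_pos
  refine ⟨k₀, fun k hk y hy => ?_⟩
  obtain ⟨N, -, -, hg⟩ := hk₀ k hk
  exact hg y hy ⟨hab, ⟨M₀, hM1, hM⟩, ⟨d, deg, hG⟩, σ, D, hX⟩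

end Pool.Agent.Results.MP_c1dca2_ag.SectionsInWindows
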