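import Pool.Agent.X281.SE.Ext

/-!
# Superelliptic curves without sections over all extensions of degree not divisible by `D`

Let `K` be a number field, `c ∈ K[t]`, `f ∈ K[t][x]` of degree `d` in `x`, `D ≥ 2`, and let `θ ∈ K̄` be a
simple zero of `c` such that `f(θ, x)` is separable of degree `d` and some `σ ∈ Gal(K̄/K(θ))` permutes
its roots in cycles of lengths divisible by `gcd(2, D) D`.  We prove that for all `t ∈ O_K` outside a
set of density zero the following holds for ALL finite extensions `L` of `K` and all integers `m` such
that `D` does not divide `m [L : K]`, and all `n` divisible by `D`: the curve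

  `c(t)^m yⁿ = f(t, x)`

has no point over `L`, and the fundamental groups of its open subcurves over `L`, and of all smooth
curves (or varieties) over `L` that dominate it, have no sections over `G_L`.

So for one and the same `t` the section conjecture holds for the curve over all these extensions `L`
at once, without points and sections.  For instance let `E/K` be a Galois extension with an element of
order `4` in its Galois group, generated by a root of `f ∈ K[x]`.  Then for 100% of the `a ∈ O_K` the
hyperelliptic curve `a y² = f(x)` has no sections over all extensions `L` of `K` of odd degree, and the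
curve `a y⁴ = f(x)` has none over all `L` of degree not divisible by `4`, if the order of the element is
`8`.  The set of the exceptional `t` has density zero in a strong sense: for every `ε > 0` there is an
ideal `I ≠ 0` such that the exceptional `t` lie in at most `ε #(O_K/I)` residue classes modulo `I`.

In `MP_2f3286_ag.QuadraticTwists`, `MP_e66f84_ag.SuperellipticTwists` and in
`MP_2f3286_ag.OneParameterFamilies` only sections over `K` are considered.

The fundamental group is described through valuations.  Let `U` be a smooth geometrically connected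
curve over `k` with function field `F`, let `Ω` be an algebraic closure of `F`, and let `F_U` be the
maximal extension of `F` inside `Ω` which is unramified over the closed points of `U`, that is, over
their local rings, which are valuation rings of `F`.  Then `π₁(U) = Gal(F_U/F)`, and the map
`π₁(U) → G_k` is the restriction of automorphisms to the algebraic closure of `k` in `Ω`.

Proof.  By Chebotarev almost all `t` have a prime `v` of degree one with `v(c(t)) = 1` such that
`f(t, x)` is separable of degree `d` modulo `v` and the Frobenius element permutes its roots in cycles of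
lengths divisible by `gcd(2, D) D`.  Let `l` be a prime number with `v_l(m [L : K]) < v_l(D)`.  There is a
place `w` of `L` over `v` with `v_l(e f) ≤ v_l([L : K])` for its ramification index `e` and residue degree
`f`; put `ℓ = l^(1 + v_l(e m))`, a divisor of `D`.  Then the valuation `e m` of `c(t)^m` at `w` is not
divisible by `ℓ`, and the irreducible factors of `f(t, x)` over the residue field of `w` have degrees
divisible by `gcd(2, ℓ) ℓ`.  Now the local theorem of `MP_8312c9_nt.FactorDegrees` applies at `w`.
-/

open Polynomial NumberField

namespace Pool.Agent.Results.MP_c1dca2_ag.SuperellipticOverExtensions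

universe u v w y

section definitions

variable (k : Type u) (F : Type v) (Ω : Type w) [Field k] [Field F] [Field Ω] [Algebra k F]
  [Algebra F Ω] [Algebra k Ω]

/-- The inertia group of the valuation ring `W` of `Ω`, as a subgroup of `Gal(Ω/F)`: the
automorphisms of `Ω` over `F` that map `W` onto itself and act as the identity on its residue
field. -/
noncomputable def inertia (W : ValuationSubring Ω) : Subgroup (Ω ≃ₐ[F] Ω) :=
  (W.inertiaSubgroup F).map (W.decompositionSubgroup F).subtype

/-- `F_U`, for a set `U` of valuation rings of `F`: the elements of `Ω` fixed by the inertia groups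
of all valuation rings `W` of `Ω` with `W ∩ F ∈ U`.  If `Ω` is an algebraic closure of a field `F`
of characteristic zero, this is the maximal extension of `F` in `Ω` unramified over `U`. -/
noncomputable def unramified (U : Set (ValuationSubring F)) : IntermediateField F Ω :=
  ⨅ W : {W : ValuationSubring Ω // W.comap (algebraMap F Ω) ∈ U},
    IntermediateField.fixedField (inertia F Ω W.1)

/-- The map `τ : M → M` acts as `σ : K → K` on the elements that the fields `K` and `M` have in
common when they are regarded as subfields of `Ω` through `i` and `j`. -/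
def ActsAs {K M Ω : Type*} [Field K] [Field M] [Field Ω] (i : K →+* Ω) (j : M →+* Ω) (σ : K → K)
    (τ : M → M) : Prop :=
  ∀ c z, j z = i c → j (τ z) = i (σ c)

/-- Let `k ⊆ K ⊆ Ω` and `F ⊆ M ⊆ Ω` be fields.  A splitting of `Gal(M/F) → Gal(K/k)`: a continuous
homomorphism `s` from `Gal(K/k)` to `Gal(M/F)` such that `s(σ)` acts as `σ` on the elements of
`K ∩ M`. -/
structure Splitting (K M : Type*) [Field K] [Field M] [Algebra k K] [Algebra F M] [Algebra K Ω]
    [Algebra M Ω] where
  /-- the homomorphism `Gal(K/k) → Gal(M/F)` -/
  toHom : (K ≃ₐ[k] K) →* (M ≃ₐ[F] M)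
  cont : Continuous toHom
  compat : ∀ σ : K ≃ₐ[k] K, ActsAs (algebraMap K Ω) (algebraMap M Ω) σ (toHom σ)

/-- The sections of `π₁(U) = Gal(F_U/F) → G_k`: the continuous homomorphisms `s` from
`G_k = Gal(k̄/k)` to `Gal(F_U/F)`, where `k̄` is the algebraic closure of `k` in `Ω`, such that
`s(σ)` acts as `σ` on the elements of `k̄`. -/
def GaloisSection (U : Set (ValuationSubring F)) : Type w :=
  Splitting k F Ω (algebraicClosure k Ω) (unramified F Ω U)

end definitions

/-- The smooth projective curve with the affine equation `a yⁿ = f(x)` has no point over `k`: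
neither in the affine part nor at infinity. -/
def NoPoint {k : Type u} [Field k] (n : ℕ) (a : k) (f : k[X]) : Prop :=
  (¬ ∃ x y : k, a * y ^ n = f.eval x) ∧
    ¬ ∃ r : k, a * r ^ Nat.gcd n f.natDegree = f.leadingCoeff

/-- Let `F` be any field over `k` that contains a point `(x, y)` of the curve `a yⁿ = f(x)`, for
instance the function field of the curve, and let `Ω` be an algebraic closure of `F`.  Then for
every set `U` of valuation rings of `F` over `k` there is no section of `π₁(U) → G_k`.  If `F` is the
function field of the curve, such `U` are given by the smooth projective curve and by all its open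
subcurves. -/
def NoSection {k : Type u} [Field k] (n : ℕ) (a : k) (f : k[X]) : Prop :=
  ∀ (F : Type v) (Ω : Type w) [Field F] [Field Ω] [Algebra k F] [Algebra F Ω] [Algebra k Ω]
    [IsScalarTower k F Ω] [IsAlgClosure F Ω] (x y : F) (U : Set (ValuationSubring F)),
    algebraMap k F a * y ^ n = aeval x f → (∀ O ∈ U, ∀ c : k, algebraMap k F c ∈ O) →
      IsEmpty (GaloisSection k F Ω U)

/-- The polynomial `f(t, x)` in `x`, for `f ∈ K[t][x]` and an element `t` of a field `B` over `K`. -/
noncomputable def member {K : Type u} [Field K] (f : K[X][X]) {B : Type*} [Field B] [Algebra K B]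
    (t : B) : B[X] :=
  f.map (eval₂RingHom (algebraMap K B) t)

/-- Some element `σ` of the Galois group of `K` fixes `θ` and permutes the roots of `f(θ, x)` in cycles
of lengths divisible by `N`. -/
def HasElement {K : Type u} [Field K] (N : ℕ) (f : K[X][X]) (θ : AlgebraicClosure K) : Prop :=
  ∃ σ : AlgebraicClosure K ≃ₐ[K] AlgebraicClosure K, σ θ = θ ∧
    ∀ n : ℕ, ¬ N ∣ n → ∀ ρ, (member f θ).eval ρ = 0 → (σ ^ n) ρ ≠ ρ

/-- For all finite extensions `L` of `K` and integers `m` such that `D` does not divide `m [L : K]`, and
all `n` divisible by `D`, the curve `a^m yⁿ = p(x)` has neither points nor sections over `L`. -/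
def Nothing {K : Type u} [Field K] (D : ℕ) (a : K) (p : K[X]) : Prop :=
  ∀ (L : Type y) [Field L] [Algebra K L] [FiniteDimensional K L] (m : ℤ),
    ¬ (D : ℤ) ∣ m * (Module.finrank K L : ℤ) → ∀ n : ℕ, D ∣ n →
      NoPoint n (algebraMap K L (a ^ m)) (p.map (algebraMap K L)) ∧
      NoSection.{y, v, w} n (algebraMap K L (a ^ m)) (p.map (algebraMap K L))

/-- The integers `t` of `K` for which the assertions are not all true for `c(t)` and `f(t, x)`. -/
def Exceptional {K : Type u} [Field K] (D : ℕ) (c : K[X]) (f : K[X][X]) : Set (𝓞 K) :=
  {t | ¬ Nothing.{u, v, w, y} D (c.eval (algebraMap (𝓞 K) K t)) (member f (algebraMap (𝓞 K) K t))}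

/-- Density zero: for every `ε > 0` there is an ideal `I ≠ 0` such that `E` lies in at most
`ε #(O_K/I)` residue classes modulo `I`. -/
def DensityZero {K : Type u} [Field K] (E : Set (𝓞 K)) : Prop :=
  ∀ ε : ℝ, 0 < ε → ∃ I : Ideal (𝓞 K), I ≠ ⊥ ∧
    (Set.ncard ((Ideal.Quotient.mk I) '' E) : ℝ) ≤ ε * Nat.card (𝓞 K ⧸ I)

/-- Let `K` be a number field, `c ∈ K[t]`, `f ∈ K[t][x]`, `D ≥ 2`, and let `θ ∈ K̄` be a simple zero of `c`
such that `f(θ, x)` is separable of the same degree as `f` and some element of `Gal(K̄/K(θ))` permutes
its roots in cycles of lengths divisible by `gcd(2, D) D`.  Then for all `t ∈ O_K` outside a set of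
density zero, for all finite extensions `L` of `K` and integers `m` such that `D` does not divide
`m [L : K]`, and all `n` divisible by `D`, the smooth projective curve over `L` with the affine equation
`c(t)^m yⁿ = f(t, x)` has no point over `L`, and the fundamental groups of its open subcurves over `L`
and of all smooth curves over `L` that dominate it have no sections over `G_L`. -/
theorem result (K : Type u) [Field K] [NumberField K] (D : ℕ) (hD : 2 ≤ D) (c : K[X])
    (f : K[X][X]) (θ : AlgebraicClosure K) (hc : aeval θ c = 0)
    (hc' : aeval θ (derivative c) ≠ 0) (hdeg : (member f θ).natDegree = f.natDegree)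
    (hsep : (member f θ).Separable) (h : HasElement (Nat.gcd 2 D * D) f θ) :
    DensityZero (Exceptional.{u, v, w, y} D c f) := by
  have hadm : Pool.Agent.X281.SE.Adm (Nat.gcd 2 D * D) f θ := by
    obtain ⟨σ, h1, h2⟩ := h
    refine ⟨σ, h1, fun ρ hρ h3 => ?_, fun _ => h2⟩
    refine h2 1 ?_ ρ hρ (by rw [pow_one]; exact h3)
    intro h4
    have h5 : D ∣ 1 := (Dvd.intro_left _ rfl).trans h4
    have := Nat.le_of_dvd one_pos h5
    omega
  intro ε hε
  obtain ⟨I, hI, hIE⟩ := Pool.Agent.X281.SE.ext_density.{u, v, w, y} D hD c f θ hc hc' hdeg
    hsep hadm ε hε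
  refine ⟨I, hI, le_trans ?_ hIE⟩
  have hfin : Finite (𝓞 K ⧸ I) := Ideal.finiteQuotientOfFreeOfNeBot _ hI
  have hsub : (Exceptional.{u, v, w, y} D c f : Set (𝓞 K)) ⊆
      {t : 𝓞 K | ¬ ((Pool.Agent.X281.SE.fibre f (algebraMap (𝓞 K) K t)).natDegree = f.natDegree ∧
        ∀ (L : Type y) [Field L] [Algebra K L] [FiniteDimensional K L] (m : ℤ),
          ¬ (D : ℤ) ∣ m * Module.finrank K L → ∀ n : ℕ, D ∣ n →
          Pool.Agent.X281.SE.ExtFine.{v, w, y} D n
            (algebraMap K L (c.eval (algebraMap (𝓞 K) K t) ^ m))
            ((Pool.Agent.X281.SE.fibre f (algebraMap (𝓞 K) K t)).map (algebraMap K L)))} := by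
    intro t ht hfine
    apply ht
    intro L _ _ _ m hm n hDn
    obtain ⟨h1, h2, -, h3⟩ := hfine.2 L m hm n hDn
    refine ⟨⟨?_, ?_⟩, ?_⟩
    · rintro ⟨x, y, hxy⟩
      exact h1 x y hxy
    · rintro ⟨r, hr⟩
      exact h2 r hr
    · intro F Ω _ _ _ _ _ _ _ x y U hxy hU
      have hcl : IsAlgClosed Ω := IsAlgClosure.isAlgClosed F
      have halg : Algebra.IsAlgebraic F Ω := IsAlgClosure.isAlgebraic
      have h4 := h3 F Ω U hU x y hxy
      exact ⟨fun s => h4.false ⟨s.toHom, s.cont, s.compat⟩⟩
  exact_mod_cast Set.ncard_le_ncard (Set.image_mono hsub) (Set.toFinite _)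

end Pool.Agent.Results.MP_c1dca2_ag.SuperellipticOverExtensions
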